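import Pool.Agent.Y677.RSZ.Stm
import Pool.Agent.Helper601.Mertens
import Pool.Agent.W356.UBSel

/-!
Selberg's weights for the densities `r(p) / p` (task S_SEL of project RSZ), helper500.
-/

set_option autoImplicit false

open Finset

namespace Pool.Agent.Y500.RSZ

open Pool.Agent.Y677.RSZ
open Pool.Agent.Helper923.PPS (selS selW selS_pos selW_one mainSum_selW selW_eq_zero)

/-- the density -/
noncomputable def nu (r : ℕ → ℕ) : ArithmeticFunction ℝ :=
  ⟨fun d => (rs r d : ℝ) / (d : ℕ), by simp⟩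

theorem nu_apply (r : ℕ → ℕ) (d : ℕ) : nu r d = (rs r d : ℝ) / (d : ℕ) := rfl

theorem nu_mult (r : ℕ → ℕ) : (nu r).IsMultiplicative := by
  refine ⟨by simp [nu_apply, rs], fun {m n} h => ?_⟩
  rw [nu_apply, nu_apply, nu_apply, rs, rs, rs, Nat.Coprime.primeFactors_mul h,
    prod_union h.disjoint_primeFactors]
  push_cast
  rw [mul_div_mul_comm]

theorem rs_prime (r : ℕ → ℕ) {p : ℕ} (hp : p.Prime) : rs r p = r p := by
  rw [rs, hp.primeFactors, prod_singleton]

/-- the terms of the Selberg sum -/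
noncomputable def ht (r : ℕ → ℕ) (p : ℕ) : ℝ := (r p : ℝ) / p * (1 - (r p : ℝ) / p)⁻¹

/-- the sieve -/
noncomputable def sv (r : ℕ → ℕ) (P : Finset ℕ) (hP : ∀ p ∈ P, p.Prime ∧ 0 < r p ∧ r p < p) :
    BoundingSieve where
  support := ∅
  prodPrimes := ∏ p ∈ P, p
  prodPrimes_squarefree := Pool.Agent.W356.UBSel.sqf P (fun p hp => (hP p hp).1)
  weights := fun _ => 0
  weights_nonneg := fun _ => le_rfl
  totalMass := 0
  nu := nu r
  nu_mult := nu_mult r
  nu_pos_of_prime := fun p hp hd => by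
    have h1 := ((Pool.Agent.W356.UBSel.dvd_iff P (fun p hp => (hP p hp).1) _).1 hd).2 p hp dvd_rfl
    rw [nu_apply, rs_prime r hp]
    have h2 : (0 : ℝ) < r p := by exact_mod_cast (hP p h1).2.1
    have h3 : (0 : ℝ) < p := by exact_mod_cast hp.pos
    positivity
  nu_lt_one_of_prime := fun p hp hd => by
    have h1 := ((Pool.Agent.W356.UBSel.dvd_iff P (fun p hp => (hP p hp).1) _).1 hd).2 p hp dvd_rfl
    rw [nu_apply, rs_prime r hp]
    have h3 : (0 : ℝ) < p := by exact_mod_cast hp.pos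
    rw [div_lt_one h3]
    exact_mod_cast (hP p h1).2.2

section
variable (r : ℕ → ℕ) (P : Finset ℕ) (hP : ∀ p ∈ P, p.Prime ∧ 0 < r p ∧ r p < p) (R : ℕ)

include hP in
theorem hPp : ∀ p ∈ P, p.Prime := fun p hp => (hP p hp).1

theorem term_eq {l : ℕ} (hl : l ∣ ∏ p ∈ P, p) :
    (sv r P hP).selbergTerms l = ∏ p ∈ l.primeFactors, ht r p := by
  have hsq := ((Pool.Agent.W356.UBSel.dvd_iff P (hPp r P hP) l).1 hl).1
  rw [BoundingSieve.selbergTerms_apply]
  have h1 : (sv r P hP).nu l = ∏ p ∈ l.primeFactors, ((r p : ℝ) / p) := by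
    show (rs r l : ℝ) / (l : ℕ) = _
    rw [prod_div_distrib, rs]
    congr 1
    · push_cast
      rfl
    · conv_lhs => rw [← Nat.prod_primeFactors_of_squarefree hsq]
      push_cast
      rfl
  rw [h1, ← prod_mul_distrib]
  refine prod_congr rfl fun p hp => ?_
  have h2 : (sv r P hP).nu p = (r p : ℝ) / p := by
    show (rs r p : ℝ) / (p : ℕ) = _
    rw [rs_prime r (Nat.prime_of_mem_primeFactors hp)]
  rw [h2, ht]

theorem selS_eq : selS (sv r P hP) R =
    ∑ T ∈ P.powerset.filter (fun T => ∏ p ∈ T, p ≤ R), ∏ p ∈ T, ht r p := by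
  classical
  have hpr := hPp r P hP
  unfold selS
  have h0 : (sv r P hP).prodPrimes = ∏ p ∈ P, p := rfl
  have hne : ∏ p ∈ P, p ≠ 0 := (Pool.Agent.W356.UBSel.sqf P hpr).ne_zero
  refine sum_nbij' (fun l : ℕ => l.primeFactors) (fun T : Finset ℕ => ∏ p ∈ T, p) ?_ ?_ ?_ ?_ ?_
  · intro l hl
    rw [mem_filter, Nat.mem_divisors, h0] at hl
    have h1 := (Pool.Agent.W356.UBSel.dvd_iff P hpr l).1 hl.1.1
    rw [mem_filter, mem_powerset, Nat.prod_primeFactors_of_squarefree h1.1]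
    exact ⟨fun p hp => h1.2 p (Nat.prime_of_mem_primeFactors hp) (Nat.dvd_of_mem_primeFactors hp),
      by exact_mod_cast hl.2⟩
  · intro T hT
    rw [mem_filter, mem_powerset] at hT
    rw [mem_filter, Nat.mem_divisors, h0]
    exact ⟨⟨prod_dvd_prod_of_subset _ _ _ hT.1, hne⟩, by exact_mod_cast hT.2⟩
  · intro l hl
    rw [mem_filter, Nat.mem_divisors, h0] at hl
    have h1 := (Pool.Agent.W356.UBSel.dvd_iff P hpr l).1 hl.1.1
    exact Nat.prod_primeFactors_of_squarefree h1.1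
  · intro T hT
    rw [mem_filter, mem_powerset] at hT
    exact Nat.primeFactors_prod (fun p hp => hpr p (hT.1 hp))
  · intro l hl
    rw [mem_filter, Nat.mem_divisors, h0] at hl
    exact term_eq r P hP hl.1.1

theorem lam_zero {d : ℕ} (hd : ¬ (d ∣ ∏ p ∈ P, p ∧ d ≤ R)) : selW (sv r P hP) R d = 0 := by
  rw [not_and_or] at hd
  rcases hd with hd | hd
  · unfold selW
    rw [sum_eq_zero, mul_zero]
    intro l hl
    rw [mem_filter, Nat.mem_divisors] at hl
    exact absurd (hl.2.1.trans hl.1.1) hd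
  · exact selW_eq_zero (sv r P hP) R (by exact_mod_cast not_le.1 hd)

theorem lam_le (hR : 1 ≤ R) (d : ℕ) : |selW (sv r P hP) R d| ≤ 1 := by
  by_cases hd : d ∣ (sv r P hP).prodPrimes
  · unfold selW
    have hS := selS_pos (sv r P hP) R (by exact_mod_cast hR)
    have hnu : 0 < (sv r P hP).nu d := BoundingSieve.nu_pos_of_dvd_prodPrimes hd
    have h0 : 0 ≤ ∑ l ∈ (Nat.divisors (sv r P hP).prodPrimes).filter
        (fun l : ℕ => d ∣ l ∧ (l : ℝ) ≤ (R : ℝ)), (sv r P hP).selbergTerms l := by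
      refine sum_nonneg fun l hl => ?_
      rw [mem_filter, Nat.mem_divisors] at hl
      exact (BoundingSieve.selbergTerms_pos hl.1.1).le
    have hk := Pool.Agent.W356.UBSel.key (sv r P hP) R hd
    have hμ : |((ArithmeticFunction.moebius d : ℤ) : ℝ)| ≤ 1 := by
      have : |ArithmeticFunction.moebius d| ≤ 1 := ArithmeticFunction.abs_moebius_le_one
      exact_mod_cast this
    rw [abs_mul, abs_mul, abs_mul, abs_of_nonneg h0, abs_of_pos (inv_pos.mpr hnu),
      abs_of_pos (inv_pos.mpr hS)]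
    obtain ⟨T0, hT0⟩ : ∃ T0 : ℝ, T0 = ∑ l ∈ (Nat.divisors (sv r P hP).prodPrimes).filter
        (fun l : ℕ => d ∣ l ∧ (l : ℝ) ≤ (R : ℝ)), (sv r P hP).selbergTerms l := ⟨_, rfl⟩
    rw [← hT0] at h0 hk ⊢
    calc ((sv r P hP).nu d)⁻¹ * |((ArithmeticFunction.moebius d : ℤ) : ℝ)| *
          (selS (sv r P hP) R)⁻¹ * T0
        = |((ArithmeticFunction.moebius d : ℤ) : ℝ)| * ((selS (sv r P hP) R)⁻¹ *
          (((sv r P hP).nu d)⁻¹ * T0)) := by ring
      _ ≤ 1 * ((selS (sv r P hP) R)⁻¹ * selS (sv r P hP) R) := by gcongr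
      _ = 1 := by rw [inv_mul_cancel₀ hS.ne', one_mul]
  · rw [lam_zero r P hP R (fun h => hd h.1), abs_zero]
    exact zero_le_one

theorem quad (hR : 1 ≤ R) : qfr r R (fun d => selW (sv r P hP) R d) = (selS (sv r P hP) R)⁻¹ := by
  classical
  have hpr := hPp r P hP
  have hne : ∏ p ∈ P, p ≠ 0 := (Pool.Agent.W356.UBSel.sqf P hpr).ne_zero
  have h0 : (sv r P hP).prodPrimes = ∏ p ∈ P, p := rfl
  set D : Finset ℕ := (∏ p ∈ P, p).divisors.filter (fun d => d ≤ R) with hD
  set w : ℕ → ℝ := fun d => selW (sv r P hP) R d with hw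
  have hwz : ∀ d, d ∉ D → w d = 0 := by
    intro d hd
    refine lam_zero r P hP R (fun h => hd ?_)
    rw [hD, mem_filter, Nat.mem_divisors]
    exact ⟨⟨h.1, hne⟩, h.2⟩
  have hD1 : D ⊆ Icc 1 R := by
    intro d hd
    rw [hD, mem_filter, Nat.mem_divisors] at hd
    rw [mem_Icc]
    exact ⟨Nat.pos_of_dvd_of_pos hd.1.1 (Nat.pos_of_ne_zero hne), hd.2⟩
  have hD2 : D ⊆ (∏ p ∈ P, p).divisors := filter_subset _ _
  rw [← mainSum_selW (sv r P hP) R (by exact_mod_cast hR),
    BoundingSieve.mainSum_lambdaSquared_eq_sum_sum_mul, h0]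
  unfold qfr
  have e1 : ∑ d ∈ Icc 1 R, ∑ e ∈ Icc 1 R, w d * w e * ((rs r (Nat.lcm d e) : ℝ) / (Nat.lcm d e : ℕ))
      = ∑ d ∈ D, ∑ e ∈ D, w d * w e * ((rs r (Nat.lcm d e) : ℝ) / (Nat.lcm d e : ℕ)) := by
    symm
    rw [← sum_subset hD1]
    · refine sum_congr rfl fun d _ => ?_
      rw [← sum_subset hD1]
      intro e _ he
      rw [hwz e he]
      ring
    · intro d _ hd
      refine sum_eq_zero fun e _ => ?_
      rw [hwz d hd]
      ring
  have e2 : ∑ d1 ∈ (∏ p ∈ P, p).divisors, ∑ d2 ∈ (∏ p ∈ P, p).divisors,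
        (sv r P hP).nu d1 * w d1 * (sv r P hP).nu d2 * w d2 * ((sv r P hP).nu (d1.gcd d2))⁻¹ =
      ∑ d1 ∈ D, ∑ d2 ∈ D,
        (sv r P hP).nu d1 * w d1 * (sv r P hP).nu d2 * w d2 * ((sv r P hP).nu (d1.gcd d2))⁻¹ := by
    symm
    rw [← sum_subset hD2]
    · refine sum_congr rfl fun d _ => ?_
      rw [← sum_subset hD2]
      intro e _ he
      rw [hwz e he]
      ring
    · intro d _ hd
      refine sum_eq_zero fun e _ => ?_
      rw [hwz d hd]
      ring
  refine e1.trans (Eq.trans ?_ e2.symm)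
  refine sum_congr rfl fun d hd => sum_congr rfl fun e he => ?_
  rw [hD, mem_filter, Nat.mem_divisors] at hd he
  have h1 : (sv r P hP).nu (d.gcd e) ≠ 0 :=
    (BoundingSieve.nu_pos_of_dvd_prodPrimes (s := sv r P hP)
      ((Nat.gcd_dvd_left d e).trans hd.1.1)).ne'
  have h2 := (sv r P hP).nu_mult.map_lcm h1
  have h3 : (rs r (Nat.lcm d e) : ℝ) / (Nat.lcm d e : ℕ) = (sv r P hP).nu (d.lcm e) := rfl
  rw [h3, h2]
  ring

end

/-- the primes of the sieve -/
def PP (r : ℕ → ℕ) (z R : ℕ) : Finset ℕ := (Ioc z R).filter (fun p => p.Prime ∧ 0 < r p)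

theorem ht_nonneg {r : ℕ → ℕ} {p : ℕ} (h : (r p : ℝ) < p) : 0 ≤ ht r p := by
  have h0 : (0 : ℝ) < p := lt_of_le_of_lt (Nat.cast_nonneg _) h
  have h1 : (r p : ℝ) / p < 1 := (div_lt_one h0).2 h
  unfold ht
  exact mul_nonneg (by positivity) (inv_nonneg.2 (by linarith))

theorem one_add_ht {r : ℕ → ℕ} {p : ℕ} (h : (r p : ℝ) < p) :
    1 + ht r p = (1 - (r p : ℝ) / p)⁻¹ := by
  have h0 : (0 : ℝ) < p := lt_of_le_of_lt (Nat.cast_nonneg _) h
  have h1 : (r p : ℝ) / p < 1 := (div_lt_one h0).2 h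
  have h2 : 1 - (r p : ℝ) / p ≠ 0 := by
    intro h3
    linarith
  unfold ht
  generalize (r p : ℝ) / p = x at h2 ⊢
  field_simp
  ring

theorem ht_le {r : ℕ → ℕ} {p g : ℕ} (h : r p ≤ g) (hp : 2 * g < p) : ht r p ≤ 2 * g / p := by
  have h0 : (0 : ℝ) < p := by exact_mod_cast (by omega : 0 < p)
  have h1 : (r p : ℝ) ≤ g := by exact_mod_cast h
  have h2 : (2 : ℝ) * g < p := by exact_mod_cast hp
  have h3 : (r p : ℝ) / p ≤ 1 / 2 := by
    rw [div_le_div_iff₀ h0 (by norm_num)]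
    linarith
  have h4 : (1 - (r p : ℝ) / p)⁻¹ ≤ 2 := by
    rw [inv_le_comm₀ (by linarith) (by norm_num)]
    linarith
  have h5 : 0 ≤ (r p : ℝ) / p := by positivity
  calc ht r p ≤ (r p : ℝ) / p * 2 := mul_le_mul_of_nonneg_left h4 h5
    _ = 2 * r p / p := by ring
    _ ≤ 2 * g / p := by gcongr

theorem prod_PP {r : ℕ → ℕ} {z R : ℕ} (hr : ∀ p ∈ (Ioc z R).filter Nat.Prime, (r p : ℝ) < p) :
    ∏ p ∈ PP r z R, (1 + ht r p) = (PR r z R)⁻¹ := by
  unfold PR
  rw [← prod_inv_distrib]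
  have hsub : PP r z R ⊆ (Ioc z R).filter Nat.Prime := by
    intro p hp
    rw [PP, mem_filter] at hp
    exact mem_filter.2 ⟨hp.1, hp.2.1⟩
  rw [← prod_subset hsub]
  · exact prod_congr rfl fun p hp => one_add_ht (hr p (hsub hp))
  · intro p hp hp2
    have h1 : r p = 0 := by
      by_contra h
      refine hp2 ?_
      rw [mem_filter] at hp
      exact mem_filter.2 ⟨hp.1, hp.2, Nat.pos_of_ne_zero h⟩
    rw [h1]
    simp

theorem exists_root {s R : ℕ} (hs : 1 ≤ s) : ∃ y : ℕ, y ^ s ≤ R ∧ R < (y + 1) ^ s := by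
  by_contra h
  push Not at h
  have h1 : ∀ y : ℕ, y ^ s ≤ R := by
    intro y
    induction y with
    | zero => simp [zero_pow (by omega : s ≠ 0)]
    | succ y ih => exact h y ih
  have h2 := h1 (R + 1)
  have h3 : R + 1 ≤ (R + 1) ^ s := Nat.le_self_pow (by omega) _
  omega

/-- Rankin's bound for the tail of the sum -/
theorem rankin {r : ℕ → ℕ} {g y R s : ℕ} {C₁ : ℝ} (Q : Finset ℕ)
    (hQ : ∀ p ∈ Q, p.Prime ∧ p ≤ y ∧ 2 * g < p ∧ r p ≤ g) (hy : 2 ≤ y) (hyR : y ^ s ≤ R)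
    (hC₁ : ∀ N : ℕ, 1 ≤ N →
      |∑ p ∈ (Finset.Icc 1 N).filter Nat.Prime, Real.log p / p - Real.log N| ≤ C₁) :
    ∑ T ∈ Q.powerset.filter (fun T => ¬ ∏ p ∈ T, p ≤ R), ∏ p ∈ T, ht r p ≤
      Real.exp (-(s : ℝ) + 4 * g * (1 + C₁ / Real.log 2)) * ∏ p ∈ Q, (1 + ht r p) := by
  classical
  have hC0 : 0 ≤ C₁ := (abs_nonneg _).trans (hC₁ 1 le_rfl)
  have hl2 : 0 < Real.log 2 := Real.log_pos (by norm_num)
  have hy2 : (2 : ℝ) ≤ y := by exact_mod_cast hy
  have hly : 0 < Real.log y := Real.log_pos (by linarith)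
  have hly2 : Real.log 2 ≤ Real.log y := Real.log_le_log (by norm_num) hy2
  have hR0 : 0 < R := lt_of_lt_of_le (pow_pos (by omega) s) hyR
  have hRr : (0 : ℝ) < R := by exact_mod_cast hR0
  have hlR : (s : ℝ) * Real.log y ≤ Real.log R := by
    rw [← Real.log_pow]
    exact Real.log_le_log (by positivity) (by exact_mod_cast hyR)
  have hrp : ∀ p ∈ Q, (r p : ℝ) < p := by
    intro p hp
    obtain ⟨_, _, h3, h4⟩ := hQ p hp
    exact_mod_cast (by omega : r p < p)
  set e : ℕ → ℝ := fun p => Real.exp (Real.log p / Real.log y) with he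
  have h1 : ∀ T ∈ Q.powerset.filter (fun T => ¬ ∏ p ∈ T, p ≤ R), ∏ p ∈ T, ht r p ≤
      Real.exp (-(s : ℝ)) * ∏ p ∈ T, (ht r p * e p) := by
    intro T hT
    rw [mem_filter, mem_powerset, not_le] at hT
    have hT0 : 0 ≤ ∏ p ∈ T, ht r p := prod_nonneg fun p hp => ht_nonneg (hrp p (hT.1 hp))
    rw [prod_mul_distrib]
    have h2 : ∏ p ∈ T, e p = Real.exp (Real.log ((∏ p ∈ T, p : ℕ) : ℝ) / Real.log y) := by
      rw [he, ← Real.exp_sum, ← sum_div]
      congr 2
      push_cast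
      rw [Real.log_prod]
      intro p hp
      exact_mod_cast (hQ p (hT.1 hp)).1.ne_zero
    have h3 : (s : ℝ) ≤ Real.log ((∏ p ∈ T, p : ℕ) : ℝ) / Real.log y := by
      rw [le_div_iff₀ hly]
      exact hlR.trans (Real.log_le_log hRr (by exact_mod_cast hT.2.le))
    have h4 : 1 ≤ Real.exp (-(s : ℝ)) * ∏ p ∈ T, e p := by
      rw [h2, ← Real.exp_add]
      exact Real.one_le_exp (by linarith)
    calc ∏ p ∈ T, ht r p = (∏ p ∈ T, ht r p) * 1 := (mul_one _).symm
      _ ≤ (∏ p ∈ T, ht r p) * (Real.exp (-(s : ℝ)) * ∏ p ∈ T, e p) :=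
          mul_le_mul_of_nonneg_left h4 hT0
      _ = _ := by ring
  have h2 : ∑ T ∈ Q.powerset.filter (fun T => ¬ ∏ p ∈ T, p ≤ R), ∏ p ∈ T, ht r p ≤
      Real.exp (-(s : ℝ)) * ∏ p ∈ Q, (1 + ht r p * e p) := by
    refine (sum_le_sum h1).trans ?_
    rw [← mul_sum, prod_one_add]
    refine mul_le_mul_of_nonneg_left ?_ (Real.exp_pos _).le
    refine sum_le_sum_of_subset_of_nonneg (filter_subset _ _) ?_
    intro T hT _
    rw [mem_powerset] at hT
    exact prod_nonneg fun p hp => mul_nonneg (ht_nonneg (hrp p (hT hp))) (Real.exp_pos _).le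
  have h3 : ∀ p ∈ Q, 1 + ht r p * e p ≤
      (1 + ht r p) * Real.exp (4 * g / Real.log y * (Real.log p / p)) := by
    intro p hp
    obtain ⟨q1, q2, q3, q4⟩ := hQ p hp
    have q5 : (1 : ℝ) ≤ p := by exact_mod_cast q1.one_lt.le
    have q6 : (p : ℝ) ≤ y := by exact_mod_cast q2
    have q7 : 0 ≤ Real.log p := Real.log_nonneg q5
    have q8 : Real.log p / Real.log y ≤ 1 := by
      rw [div_le_one hly]
      exact Real.log_le_log (by linarith) q6
    have q9 : 0 ≤ Real.log p / Real.log y := by positivity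
    have q10 : e p - 1 ≤ 2 * (Real.log p / Real.log y) := by
      have h5 := Real.abs_exp_sub_one_sub_id_le (x := Real.log p / Real.log y)
        (by rw [abs_of_nonneg q9]; exact q8)
      have h6 := (abs_le.1 h5).2
      have h7 : (Real.log p / Real.log y) ^ 2 ≤ Real.log p / Real.log y := by nlinarith
      show Real.exp (Real.log p / Real.log y) - 1 ≤ _
      linarith
    have q11 : 0 ≤ e p - 1 := by
      have := Real.one_le_exp q9
      show 0 ≤ Real.exp (Real.log p / Real.log y) - 1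
      linarith
    have q12 := ht_nonneg (hrp p hp)
    have q13 := ht_le q4 q3
    have q14 : ht r p * (e p - 1) ≤ 4 * g / Real.log y * (Real.log p / p) := by
      calc ht r p * (e p - 1) ≤ (2 * g / p) * (2 * (Real.log p / Real.log y)) :=
            mul_le_mul q13 q10 q11 (by positivity)
        _ = _ := by ring
    calc 1 + ht r p * e p ≤ (1 + ht r p) * (1 + ht r p * (e p - 1)) := by
          nlinarith [mul_nonneg q12 (mul_nonneg q12 q11)]
      _ ≤ (1 + ht r p) * Real.exp (4 * g / Real.log y * (Real.log p / p)) := by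
          refine mul_le_mul_of_nonneg_left ?_ (by linarith)
          have h8 := Real.add_one_le_exp (4 * g / Real.log y * (Real.log p / p))
          linarith
  have h4 : ∏ p ∈ Q, (1 + ht r p * e p) ≤
      (∏ p ∈ Q, (1 + ht r p)) * Real.exp (4 * g * (1 + C₁ / Real.log 2)) := by
    refine (prod_le_prod (fun p hp => ?_) h3).trans ?_
    · exact add_nonneg zero_le_one (mul_nonneg (ht_nonneg (hrp p hp)) (Real.exp_pos _).le)
    · rw [prod_mul_distrib, ← Real.exp_sum, ← mul_sum]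
      refine mul_le_mul_of_nonneg_left (Real.exp_le_exp.2 ?_)
        (prod_nonneg fun p hp => add_nonneg zero_le_one (ht_nonneg (hrp p hp)))
      have h5 : ∑ p ∈ Q, Real.log p / p ≤ Real.log y + C₁ := by
        have h6 := (abs_le.1 (hC₁ y (by omega))).2
        have h7 : ∑ p ∈ Q, Real.log p / p ≤
            ∑ p ∈ (Finset.Icc 1 y).filter Nat.Prime, Real.log p / p := by
          refine sum_le_sum_of_subset_of_nonneg ?_ ?_
          · intro p hp
            obtain ⟨q1, q2, q3, q4⟩ := hQ p hp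
            rw [mem_filter, mem_Icc]
            exact ⟨⟨q1.one_lt.le, q2⟩, q1⟩
          · intro p hp _
            have := Real.log_natCast_nonneg p
            positivity
        linarith
      have h6 : Real.log y + C₁ ≤ Real.log y * (1 + C₁ / Real.log 2) := by
        have h7 : C₁ ≤ Real.log y * (C₁ / Real.log 2) := by
          have h8 : Real.log 2 * (C₁ / Real.log 2) = C₁ := by field_simp
          calc C₁ = Real.log 2 * (C₁ / Real.log 2) := h8.symm
            _ ≤ _ := mul_le_mul_of_nonneg_right hly2 (by positivity)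
        linarith
      have h7 : 4 * g / Real.log y * ∑ p ∈ Q, Real.log p / p ≤
          4 * g / Real.log y * (Real.log y * (1 + C₁ / Real.log 2)) :=
        mul_le_mul_of_nonneg_left (h5.trans h6) (by positivity)
      refine h7.trans (le_of_eq ?_)
      field_simp
  calc _ ≤ _ := h2
    _ ≤ Real.exp (-(s : ℝ)) *
        ((∏ p ∈ Q, (1 + ht r p)) * Real.exp (4 * g * (1 + C₁ / Real.log 2))) :=
        mul_le_mul_of_nonneg_left h4 (Real.exp_pos _).le
    _ = _ := by
        rw [Real.exp_add]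
        ring

/-- lower bound for the Selberg sum -/
theorem lower {r : ℕ → ℕ} {g z y R s : ℕ} {C₁ : ℝ} (hz : 2 * g + 2 ≤ z) (hzy : z ≤ y)
    (hyR : y ≤ R) (hr : ∀ p : ℕ, p.Prime → r p ≤ g) (hys : y ^ s ≤ R)
    (hs : 4 * g * (1 + C₁ / Real.log 2) + Real.log 2 ≤ (s : ℝ))
    (hC₁ : ∀ N : ℕ, 1 ≤ N →
      |∑ p ∈ (Finset.Icc 1 N).filter Nat.Prime, Real.log p / p - Real.log N| ≤ C₁) :
    (1 / 2) * (PR r z y)⁻¹ ≤
      ∑ T ∈ (PP r z R).powerset.filter (fun T => ∏ p ∈ T, p ≤ R), ∏ p ∈ T, ht r p := by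
  classical
  have hrp : ∀ p ∈ (Ioc z R).filter Nat.Prime, (r p : ℝ) < p := by
    intro p hp
    rw [mem_filter, mem_Ioc] at hp
    have := hr p hp.2
    exact_mod_cast (by omega : r p < p)
  have hrp' : ∀ p ∈ (Ioc z y).filter Nat.Prime, (r p : ℝ) < p := by
    intro p hp
    refine hrp p ?_
    rw [mem_filter, mem_Ioc] at hp ⊢
    exact ⟨⟨hp.1.1, hp.1.2.trans hyR⟩, hp.2⟩
  have hsub : PP r z y ⊆ PP r z R := by
    intro p hp
    rw [PP, mem_filter, mem_Ioc] at hp ⊢
    exact ⟨⟨hp.1.1, hp.1.2.trans hyR⟩, hp.2⟩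
  have hpp : ∀ p ∈ PP r z R, (r p : ℝ) < p := by
    intro p hp
    refine hrp p ?_
    rw [PP, mem_filter] at hp
    exact mem_filter.2 ⟨hp.1, hp.2.1⟩
  have hra := rankin (r := r) (g := g) (y := y) (R := R) (s := s) (C₁ := C₁) (PP r z y) (by
    intro p hp
    rw [PP, mem_filter, mem_Ioc] at hp
    exact ⟨hp.2.1, hp.1.2, by omega, hr p hp.2.1⟩) (by omega) hys hC₁
  have hprod := prod_PP hrp'
  have hPpos : 0 < ∏ p ∈ PP r z y, (1 + ht r p) := by
    refine prod_pos fun p hp => ?_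
    have := ht_nonneg (hpp p (hsub hp))
    linarith
  have hexp : Real.exp (-(s : ℝ) + 4 * g * (1 + C₁ / Real.log 2)) ≤ 1 / 2 := by
    have h1 : -(s : ℝ) + 4 * g * (1 + C₁ / Real.log 2) ≤ -Real.log 2 := by linarith
    refine (Real.exp_le_exp.2 h1).trans ?_
    rw [Real.exp_neg, Real.exp_log (by norm_num)]
    norm_num
  have hsplit := sum_filter_add_sum_filter_not (PP r z y).powerset (fun T => ∏ p ∈ T, p ≤ R)
    (fun T => ∏ p ∈ T, ht r p)
  rw [← prod_one_add] at hsplit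
  have h1 : ∑ T ∈ (PP r z y).powerset.filter (fun T => ∏ p ∈ T, p ≤ R), ∏ p ∈ T, ht r p ≤
      ∑ T ∈ (PP r z R).powerset.filter (fun T => ∏ p ∈ T, p ≤ R), ∏ p ∈ T, ht r p := by
    refine sum_le_sum_of_subset_of_nonneg ?_ ?_
    · intro T hT
      rw [mem_filter, mem_powerset] at hT ⊢
      exact ⟨hT.1.trans hsub, hT.2⟩
    · intro T hT _
      rw [mem_filter, mem_powerset] at hT
      exact prod_nonneg fun p hp => ht_nonneg (hpp p (hT.1 hp))
  rw [← hprod]
  have h2 := mul_le_mul_of_nonneg_right hexp hPpos.le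
  linarith

/-- upper bound for the Selberg sum -/
theorem upper {r : ℕ → ℕ} {z R : ℕ} (hrp : ∀ p ∈ (Ioc z R).filter Nat.Prime, (r p : ℝ) < p) :
    ∑ T ∈ (PP r z R).powerset.filter (fun T => ∏ p ∈ T, p ≤ R), ∏ p ∈ T, ht r p ≤
      (PR r z R)⁻¹ := by
  classical
  have hpp : ∀ p ∈ PP r z R, (r p : ℝ) < p := by
    intro p hp
    refine hrp p ?_
    rw [PP, mem_filter] at hp
    exact mem_filter.2 ⟨hp.1, hp.2.1⟩
  rw [← prod_PP hrp, prod_one_add]
  refine sum_le_sum_of_subset_of_nonneg (filter_subset _ _) ?_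
  intro T hT _
  rw [mem_powerset] at hT
  exact prod_nonneg fun p hp => ht_nonneg (hpp p (hT hp))

/-- (SEL) -/
theorem sel (hM : S_MER) : S_SEL := by
  classical
  intro g
  obtain ⟨C₁, hC₁⟩ := Pool.Agent.Helper601.Mertens.mertens_log
  obtain ⟨s, hs⟩ := exists_nat_ge (max (4 * g * (1 + C₁ / Real.log 2) + Real.log 2) 1)
  have hs1 : 1 ≤ s := by exact_mod_cast (le_max_right _ _).trans hs
  have hs2 := (le_max_left _ _).trans hs
  obtain ⟨c, hc, hMc⟩ := hM g (2 * s) (by
    have : (1 : ℝ) ≤ s := by exact_mod_cast hs1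
    linarith)
  refine ⟨2 / c, by positivity, fun r z R hz hzR hr => ?_⟩
  have hP : ∀ p ∈ PP r z R, p.Prime ∧ 0 < r p ∧ r p < p := by
    intro p hp
    rw [PP, mem_filter, mem_Ioc] at hp
    have := hr p hp.2.1
    exact ⟨hp.2.1, hp.2.2, by omega⟩
  have hR1 : 1 ≤ R := by omega
  have hrp : ∀ p ∈ (Ioc z R).filter Nat.Prime, (r p : ℝ) < p := by
    intro p hp
    rw [mem_filter, mem_Ioc] at hp
    have := hr p hp.2
    exact_mod_cast (by omega : r p < p)
  have hrg : ∀ p ∈ (Ioc z R).filter Nat.Prime, 0 < 1 - (g : ℝ) / p ∧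
      1 - (g : ℝ) / p ≤ 1 - (r p : ℝ) / p ∧ 1 - (r p : ℝ) / p ≤ 1 := by
    intro p hp
    rw [mem_filter, mem_Ioc] at hp
    have h0 : (0 : ℝ) < p := by exact_mod_cast hp.2.pos
    have h1 : (g : ℝ) < p := by exact_mod_cast (by omega : g < p)
    have h2 : (g : ℝ) / p < 1 := (div_lt_one h0).2 h1
    have h3 : (r p : ℝ) ≤ g := by exact_mod_cast hr p hp.2
    have h4 : (r p : ℝ) / p ≤ g / p := by gcongr
    have h5 : 0 ≤ (r p : ℝ) / p := by positivity
    exact ⟨by linarith, by linarith, by linarith⟩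
  have hPR0 : 0 < PR r z R := prod_pos fun p hp => by
    have := hrg p hp
    linarith
  have hS := selS_eq r (PP r z R) hP R
  have hSpos : 0 < selS (sv r (PP r z R) hP) R := selS_pos _ _ (by exact_mod_cast hR1)
  refine ⟨fun d => selW (sv r (PP r z R) hP) R d, ?_, ?_, ?_, ?_, ?_⟩
  · exact selW_one _ _ (by exact_mod_cast hR1)
  · exact fun d => lam_le r (PP r z R) hP R hR1 d
  · intro d hd
    have h1 : d ∣ ∏ p ∈ PP r z R, p ∧ d ≤ R := by
      by_contra h
      exact hd (lam_zero r (PP r z R) hP R h)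
    have h2 := (Pool.Agent.W356.UBSel.dvd_iff (PP r z R) (hPp r _ hP) d).1 h1.1
    refine ⟨Nat.pos_of_ne_zero h2.1.ne_zero, h1.2, h2.1, fun p hp hpd => ?_⟩
    have h3 := h2.2 p hp hpd
    rw [PP, mem_filter, mem_Ioc] at h3
    exact h3.1.1
  · rw [quad r (PP r z R) hP R hR1]
    have h1 := upper hrp
    rw [← hS] at h1
    rw [← inv_inv (PR r z R)]
    exact inv_anti₀ hSpos h1
  · rw [quad r (PP r z R) hP R hR1]
    obtain ⟨y, hy1, hy2⟩ := exists_root (R := R) hs1
    have hyR : y ≤ R := (Nat.le_self_pow (by omega) y).trans hy1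
    have hlog : ∀ u : ℕ, 2 ≤ u → y ≤ u → Real.log R ≤ 2 * s * Real.log u := by
      intro u hu hyu
      have h1 : (R : ℝ) ≤ ((u : ℝ) ^ 2) ^ s := by
        have h2 : R ≤ (u ^ 2) ^ s := by
          refine hy2.le.trans (Nat.pow_le_pow_left ?_ s)
          nlinarith
        exact_mod_cast h2
      have h3 := Real.log_le_log (by exact_mod_cast hR1) h1
      rw [Real.log_pow, Real.log_pow] at h3
      push_cast at h3
      linarith
    -- the bound for the product over the large primes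
    have hbig : ∀ u : ℕ, z ≤ u → y ≤ u → u ≤ R → c ≤ ∏ p ∈ (Ioc u R).filter Nat.Prime,
        (1 - (r p : ℝ) / p) := by
      intro u hzu hyu huR
      refine (hMc u R (by omega) huR (hlog u (by omega) hyu)).trans ?_
      have hsub : ∀ p ∈ (Ioc u R).filter Nat.Prime, p ∈ (Ioc z R).filter Nat.Prime := by
        intro p hp
        rw [mem_filter, mem_Ioc] at hp ⊢
        exact ⟨⟨by omega, hp.1.2⟩, hp.2⟩
      exact prod_le_prod (fun p hp => (hrg p (hsub p hp)).1.le) (fun p hp => (hrg p (hsub p hp)).2.1)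
    by_cases hyz : y ≤ z
    · have h1 := hbig z le_rfl hyz hzR
      have h2 : 1 ≤ selS (sv r (PP r z R) hP) R := by
        rw [hS]
        have h3 := single_le_sum (s := (PP r z R).powerset.filter (fun T => ∏ p ∈ T, p ≤ R))
          (f := fun T => ∏ p ∈ T, ht r p) (fun T hT => by
            rw [mem_filter, mem_powerset] at hT
            exact prod_nonneg fun p hp => ht_nonneg (by exact_mod_cast (hP p (hT.1 hp)).2.2))
          (a := ∅) (by simp [hR1])
        simpa using h3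
      have h3 : (selS (sv r (PP r z R) hP) R)⁻¹ ≤ 1 := inv_le_one_of_one_le₀ h2
      have h4 : c ≤ PR r z R := h1
      calc _ ≤ (1 : ℝ) := h3
        _ ≤ 2 / c * PR r z R := by
            rw [div_mul_eq_mul_div, le_div_iff₀ hc]
            linarith
    · have h1 := hbig y (by omega) le_rfl hyR
      have h2 := lower (C₁ := C₁) hz (by omega : z ≤ y) hyR hr hy1 hs2 hC₁
      rw [← hS] at h2
      have hPRy : 0 < PR r z y := prod_pos fun p hp => by
        have h3 : p ∈ (Ioc z R).filter Nat.Prime := by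
          rw [mem_filter, mem_Ioc] at hp ⊢
          exact ⟨⟨hp.1.1, hp.1.2.trans hyR⟩, hp.2⟩
        have := hrg p h3
        linarith
      have h3 : PR r z R = PR r z y * ∏ p ∈ (Ioc y R).filter Nat.Prime, (1 - (r p : ℝ) / p) := by
        unfold PR
        rw [← prod_union]
        · congr 1
          ext p
          simp only [mem_union, mem_filter, mem_Ioc]
          constructor
          · rintro ⟨⟨a, b⟩, c⟩
            by_cases h : p ≤ y
            · exact Or.inl ⟨⟨a, h⟩, c⟩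
            · exact Or.inr ⟨⟨by omega, b⟩, c⟩
          · rintro (⟨⟨a, b⟩, c⟩ | ⟨⟨a, b⟩, c⟩)
            · exact ⟨⟨a, by omega⟩, c⟩
            · exact ⟨⟨by omega, b⟩, c⟩
        · rw [disjoint_left]
          intro p hp hp2
          rw [mem_filter, mem_Ioc] at hp hp2
          omega
      have h4 : (selS (sv r (PP r z R) hP) R)⁻¹ ≤ 2 * PR r z y := by
        have h5 : 0 < (1 / 2) * (PR r z y)⁻¹ := by positivity
        have h6 := inv_anti₀ h5 h2
        rw [mul_inv, inv_inv] at h6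
        norm_num at h6
        exact h6
      have h5 : PR r z y * c ≤ PR r z R := by
        rw [h3]
        exact mul_le_mul_of_nonneg_left h1 hPRy.le
      refine h4.trans ?_
      rw [div_mul_eq_mul_div, le_div_iff₀ hc]
      linarith

end Pool.Agent.Y500.RSZ
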